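import Pool.Agent.Q93.BM.Stm

/-!
# Project BM (helper93): elementary facts on the measure of the counterexample
-/

set_option autoImplicit false

open MeasureTheory Set Filter Topology Polynomial

namespace Pool.Agent.Q48.BM

open Pool.Agent.Q93.BM

lemma cc_pos (i : ℕ) : 0 < cc i := Real.exp_pos _

lemma cc_succ (i : ℕ) : cc (i + 1) ≤ cc i / 2 := by
  unfold cc
  have h1 : -(100 * (2 : ℝ) ^ (i + 1)) = -(100 * 2 ^ i) + -(100 * 2 ^ i) := by ring
  rw [h1, Real.exp_add]
  have h2 : Real.exp (-(100 * 2 ^ i)) ≤ 1 / 2 := by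
    have h3 : (1 : ℝ) ≤ 2 ^ i := one_le_pow₀ (by norm_num)
    have h4 : Real.exp (-(100 * 2 ^ i)) ≤ Real.exp (-1) := Real.exp_le_exp.2 (by linarith)
    have h5 : Real.exp (-1) ≤ 1 / 2 := by
      rw [Real.exp_neg]
      have := Real.add_one_le_exp (1 : ℝ)
      rw [one_div]
      apply inv_anti₀ (by norm_num)
      linarith
    exact h4.trans h5
  have h3 := Real.exp_pos (-(100 * (2 : ℝ) ^ i))
  nlinarith

lemma cc_add (j i : ℕ) : cc (i + j) ≤ cc j * (1 / 2) ^ i := by
  induction i with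
  | zero => simp
  | succ i ih =>
    have h1 := cc_succ (i + j)
    have h2 : i + 1 + j = i + j + 1 := by ring
    rw [h2, pow_succ]
    linarith

lemma cc_summable : Summable cc := by
  refine Summable.of_nonneg_of_le (fun i => (cc_pos i).le) (fun i => ?_)
    ((summable_geometric_of_lt_one (by norm_num) (by norm_num : (1 / 2 : ℝ) < 1)).mul_left (cc 0))
  exact cc_add 0 i

lemma cc_tail (j : ℕ) : ∑' i, cc (i + (j + 1)) ≤ 2 * cc (j + 1) := by
  have h0 := summable_geometric_of_lt_one (by norm_num) (by norm_num : (1 / 2 : ℝ) < 1)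
  have h1 : ∑' i, cc (i + (j + 1)) ≤ ∑' i : ℕ, cc (j + 1) * (1 / 2 : ℝ) ^ i := by
    refine Summable.tsum_le_tsum (fun i => cc_add (j + 1) i) ?_ (h0.mul_left _)
    exact (summable_nat_add_iff (j + 1)).2 cc_summable
  refine h1.trans (le_of_eq ?_)
  rw [tsum_mul_left, tsum_geometric_of_lt_one (by norm_num) (by norm_num)]
  ring

lemma mem_La {i : ℕ} {x : ℂ} : x ∈ La i ↔ x ^ (2 ^ i) = 1 := by
  unfold La
  exact mem_nthRootsFinset (by positivity) 1

lemma La_mono {i j : ℕ} (h : i ≤ j) {x : ℂ} (hx : x ∈ La i) : x ∈ La j := by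
  rw [mem_La] at hx ⊢
  obtain ⟨k, rfl⟩ := Nat.exists_eq_add_of_le h
  rw [pow_add, pow_mul, hx, one_pow]

lemma La_norm {i : ℕ} {x : ℂ} (hx : x ∈ La i) : ‖x‖ = 1 := by
  rw [mem_La] at hx
  exact Complex.norm_eq_one_of_pow_eq_one hx (by positivity)

lemma La_card (i : ℕ) : (La i).card = 2 ^ i := by
  unfold La
  exact (Complex.isPrimitiveRoot_exp (2 ^ i) (by positivity)).card_nthRootsFinset

lemma two_pow_ne (i : ℕ) : (2 ^ i : ENNReal) ≠ 0 := by positivity

lemma two_pow_ne_top (i : ℕ) : (2 ^ i : ENNReal) ≠ ⊤ := ENNReal.pow_ne_top ENNReal.ofNat_ne_top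

lemma sig_apply (i : ℕ) (s : Set ℂ) : sig i s = (2 ^ i : ENNReal)⁻¹ * ∑ x ∈ La i, Measure.dirac x s := by
  unfold sig
  rw [Measure.smul_apply, Measure.finsetSum_apply, smul_eq_mul]

instance sig_prob (i : ℕ) : IsProbabilityMeasure (sig i) := by
  constructor
  rw [sig_apply]
  have h1 : ∀ x ∈ La i, (Measure.dirac x) (Set.univ : Set ℂ) = 1 := fun x _ => measure_univ
  rw [Finset.sum_congr rfl h1, Finset.sum_const, La_card, nsmul_eq_mul, mul_one]
  push_cast
  exact ENNReal.inv_mul_cancel (two_pow_ne i) (two_pow_ne_top i)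

lemma nu_apply {s : Set ℂ} (hs : MeasurableSet s) :
    nu s = ∑' i, ENNReal.ofReal (cc i) * sig i s := by
  unfold nu
  rw [Measure.sum_apply _ hs]
  rfl

lemma tsum_ofReal_cc : ∑' i, ENNReal.ofReal (cc i) = ENNReal.ofReal (∑' i, cc i) :=
  (ENNReal.ofReal_tsum_of_nonneg (fun i => (cc_pos i).le) cc_summable).symm

instance nu_fin : IsFiniteMeasure nu := by
  constructor
  rw [nu_apply MeasurableSet.univ]
  have h1 : ∀ i, ENNReal.ofReal (cc i) * sig i Set.univ = ENNReal.ofReal (cc i) := by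
    intro i
    rw [measure_univ, mul_one]
  simp only [h1]
  rw [tsum_ofReal_cc]
  exact ENNReal.ofReal_lt_top

lemma sig_zero {i : ℕ} {s : Set ℂ} (hs : MeasurableSet s) (h : ∀ x ∈ La i, x ∉ s) : sig i s = 0 := by
  rw [sig_apply]
  have h1 : ∀ x ∈ La i, (Measure.dirac x) s = 0 := by
    intro x hx
    rw [Measure.dirac_apply' _ hs, Set.indicator_of_notMem (h x hx)]
  rw [Finset.sum_congr rfl h1, Finset.sum_const_zero, mul_zero]

lemma nu_sphere : nu (Metric.sphere (0 : ℂ) 1)ᶜ = 0 := by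
  rw [nu_apply Metric.isClosed_sphere.measurableSet.compl]
  have h1 : ∀ i, ENNReal.ofReal (cc i) * sig i (Metric.sphere (0 : ℂ) 1)ᶜ = 0 := by
    intro i
    rw [sig_zero Metric.isClosed_sphere.measurableSet.compl, mul_zero]
    intro x hx h2
    apply h2
    rw [mem_sphere_zero_iff_norm]
    exact La_norm hx
  simp only [h1, tsum_zero]

lemma nu_ae : ∀ᵐ z ∂nu, ‖z‖ = 1 := by
  rw [ae_iff]
  convert nu_sphere using 2
  ext z
  simp

lemma nu_point (j : ℕ) {x : ℂ} (hx : x ∈ La j) : cc j / 2 ^ j ≤ nu.real {x} := by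
  have h1 : ENNReal.ofReal (cc j / 2 ^ j) ≤ nu {x} := by
    rw [nu_apply (measurableSet_singleton x)]
    refine le_trans ?_ (ENNReal.le_tsum j)
    rw [sig_apply]
    have h2 : (1 : ENNReal) ≤ ∑ y ∈ La j, Measure.dirac y {x} := by
      refine le_trans ?_ (Finset.single_le_sum (f := fun y : ℂ => Measure.dirac y {x})
        (fun _ _ => zero_le) hx)
      simp
    rw [ENNReal.ofReal_div_of_pos (by positivity), ENNReal.div_eq_inv_mul,
      ENNReal.ofReal_pow (by norm_num), ENNReal.ofReal_ofNat]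
    calc (2 ^ j : ENNReal)⁻¹ * ENNReal.ofReal (cc j) =
        ENNReal.ofReal (cc j) * ((2 ^ j : ENNReal)⁻¹ * 1) := by ring
      _ ≤ _ := by gcongr
  rw [measureReal_def]
  exact (ENNReal.ofReal_le_iff_le_toReal (measure_ne_top _ _)).1 h1

lemma nu_compl (j : ℕ) : nu.real ((La j : Set ℂ)ᶜ) ≤ 2 * cc (j + 1) := by
  have hm : MeasurableSet ((La j : Set ℂ)ᶜ) := (Finset.measurableSet _).compl
  have h1 : nu ((La j : Set ℂ)ᶜ) ≤ ENNReal.ofReal (2 * cc (j + 1)) := by
    rw [nu_apply hm, ← Summable.sum_add_tsum_nat_add' (k := j + 1) ENNReal.summable]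
    have h2 : ∑ i ∈ Finset.range (j + 1), ENNReal.ofReal (cc i) * sig i ((La j : Set ℂ)ᶜ) = 0 := by
      refine Finset.sum_eq_zero fun i hi => ?_
      rw [sig_zero hm, mul_zero]
      intro x hx h3
      rw [Finset.mem_range] at hi
      exact h3 (Finset.mem_coe.2 (La_mono (by omega) hx))
    rw [h2, zero_add]
    have h3 : ∑' i, ENNReal.ofReal (cc (i + (j + 1))) * sig (i + (j + 1)) ((La j : Set ℂ)ᶜ) ≤
        ∑' i, ENNReal.ofReal (cc (i + (j + 1))) := by
      refine ENNReal.tsum_le_tsum fun i => ?_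
      exact mul_le_of_le_one_right zero_le prob_le_one
    refine h3.trans ?_
    rw [← ENNReal.ofReal_tsum_of_nonneg (fun i => (cc_pos _).le)
      ((summable_nat_add_iff (j + 1)).2 cc_summable)]
    exact ENNReal.ofReal_le_ofReal (cc_tail j)
  rw [measureReal_def]
  exact ENNReal.toReal_le_of_le_ofReal (by have := cc_pos (j + 1); positivity) h1

lemma int_of_cont {E : Type} [NormedAddCommGroup E] [NormedSpace ℝ E] [SecondCountableTopology E]
    [MeasurableSpace E] [BorelSpace E] {f : ℂ → E} (hf : Continuous f) : Integrable f nu := by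
  obtain ⟨C, hC⟩ := (isCompact_sphere (0 : ℂ) 1).exists_bound_of_continuousOn hf.continuousOn
  refine Integrable.of_bound hf.aestronglyMeasurable C ?_
  filter_upwards [nu_ae] with z hz
  exact hC z (mem_sphere_zero_iff_norm.2 hz)

lemma int_sig (i : ℕ) (f : ℂ → ℂ) :
    ∫ z, f z ∂(ENNReal.ofReal (cc i) • sig i) = (cc i : ℂ) * ((2 ^ i : ℂ)⁻¹ * ∑ x ∈ La i, f x) := by
  rw [integral_smul_measure]
  unfold sig
  rw [integral_smul_measure, integral_finsetSum_measure]
  · rw [ENNReal.toReal_ofReal (cc_pos i).le]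
    have h1 : ((2 ^ i : ENNReal)⁻¹).toReal = ((2 : ℝ) ^ i)⁻¹ := by
      rw [ENNReal.toReal_inv, ENNReal.toReal_pow, ENNReal.toReal_ofNat]
    rw [h1, Complex.real_smul, Complex.real_smul]
    push_cast
    congr 2
    refine Finset.sum_congr rfl fun x _ => ?_
    exact integral_dirac f x
  · intro x _
    exact integrable_dirac enorm_lt_top

lemma nu_rot (j : ℕ) {w : ℂ} (hw : w ∈ La j) {f : ℂ → ℂ} (hf : Continuous f)
    (h0 : ∀ x ∈ La j, f x = 0) : ∫ z, f (w * z) ∂nu = ∫ z, f z ∂nu := by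
  have hg : Continuous fun z => f (w * z) := hf.comp (continuous_const.mul continuous_id)
  have h1 := hasSum_integral_measure (μ := fun i => ENNReal.ofReal (cc i) • sig i) (f := f)
    (int_of_cont hf)
  have h2 := hasSum_integral_measure (μ := fun i => ENNReal.ofReal (cc i) • sig i)
    (f := fun z => f (w * z)) (int_of_cont hg)
  have h3 : ∀ i, ∫ z, f (w * z) ∂(ENNReal.ofReal (cc i) • sig i) =
      ∫ z, f z ∂(ENNReal.ofReal (cc i) • sig i) := by
    intro i
    rw [int_sig i f, int_sig i fun z => f (w * z)]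
    congr 2
    rcases le_total i j with hij | hij
    · rw [Finset.sum_eq_zero, Finset.sum_eq_zero]
      · intro x hx
        exact h0 x (La_mono hij hx)
      · intro x hx
        apply h0
        rw [mem_La, mul_pow, mem_La.1 hw, mem_La.1 (La_mono hij hx), one_mul]
    · have hwi := mem_La.1 (La_mono hij hw)
      have hw0 : w ≠ 0 := by
        intro h
        have := La_norm hw
        rw [h, norm_zero] at this
        norm_num at this
      refine Finset.sum_bij (fun x _ => w * x) ?_ ?_ ?_ ?_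
      · intro x hx
        rw [mem_La, mul_pow, hwi, mem_La.1 hx, one_mul]
      · intro x _ y _ h
        exact mul_left_cancel₀ hw0 h
      · intro y hy
        refine ⟨w⁻¹ * y, ?_, ?_⟩
        · rw [mem_La, mul_pow, inv_pow, hwi, mem_La.1 hy, inv_one, one_mul]
        · rw [mul_inv_cancel_left₀ hw0]
      · intro x _
        rfl
  simp only [h3] at h2
  exact h2.unique h1

lemma nu_def (p : ℂ[X]) (hp : ∫ z, ‖p.eval z‖ ^ 2 ∂nu = 0) : p = 0 := by
  have hc : Continuous fun z : ℂ => ‖p.eval z‖ ^ 2 := (p.continuous.norm).pow 2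
  have h1 := (integral_eq_zero_iff_of_nonneg (μ := nu) (f := fun z : ℂ => ‖p.eval z‖ ^ 2)
    (fun z => by positivity) (int_of_cont hc)).1 hp
  refine eq_zero_of_natDegree_lt_card_of_eval_eq_zero' p (La (p.natDegree)) ?_ ?_
  · intro x hx
    by_contra hne
    have h2 : nu {x} = 0 := by
      refine measure_mono_null ?_ (ae_iff.1 h1)
      intro y hy
      rw [Set.mem_singleton_iff] at hy
      rw [hy]
      show ¬ (‖p.eval x‖ ^ 2 = (0 : ℂ → ℝ) x)
      intro h3
      rw [Pi.zero_apply] at h3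
      have h4 : ‖p.eval x‖ = 0 := by
        exact pow_eq_zero_iff (two_ne_zero) |>.1 h3
      exact hne (norm_eq_zero.1 h4)
    have h3 := nu_point _ hx
    rw [measureReal_def, h2, ENNReal.toReal_zero] at h3
    have h4 : 0 < cc p.natDegree / 2 ^ p.natDegree := by
      have := cc_pos p.natDegree
      positivity
    linarith
  · rw [La_card]
    exact Nat.lt_two_pow_self

/-- S_NU. -/
theorem t_NU : S_NU := ⟨nu_fin, nu_sphere, fun j _ hx => nu_point j hx, nu_compl,
  fun j _ hw _ hf h0 => nu_rot j hw hf h0, nu_def⟩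

end Pool.Agent.Q48.BM

namespace Pool.Agent.Q93.BM

/-- S_NU under the name of the job. -/
theorem nuFacts : S_NU := Pool.Agent.Q48.BM.t_NU

end Pool.Agent.Q93.BM
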