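import Pool.Agent.Q93.BM.Stm

/-!
# Project BM (helper93): existence of orthonormal bases of polynomials
-/

set_option autoImplicit false

open MeasureTheory Set Filter Topology Polynomial

namespace Pool.Agent.Q48.BM

open Pool.Agent.Q93.BM

section core

variable (ν : Measure ℂ) [IsFiniteMeasure ν] (h1 : ν (Metric.sphere (0 : ℂ) 1)ᶜ = 0)

include h1

lemma int_cont {f : ℂ → ℂ} (hf : Continuous f) : Integrable f ν := by
  obtain ⟨C, hC⟩ := (isCompact_sphere (0 : ℂ) 1).exists_bound_of_continuousOn hf.continuousOn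
  refine Integrable.of_bound hf.aestronglyMeasurable C ?_
  have h2 : ∀ᵐ z ∂ν, z ∈ Metric.sphere (0 : ℂ) 1 := by
    rw [ae_iff]
    exact h1
  filter_upwards [h2] with z hz
  exact hC z hz

omit h1 [IsFiniteMeasure ν] in
lemma self_eq (p : ℂ[X]) : ∫ z, star (p.eval z) * p.eval z ∂ν =
    ((∫ z, ‖p.eval z‖ ^ 2 ∂ν : ℝ) : ℂ) := by
  rw [← integral_complex_ofReal]
  congr 1
  ext z
  have h2 : star (p.eval z) * p.eval z = ((Complex.normSq (p.eval z) : ℝ) : ℂ) := by
    rw [Complex.normSq_eq_conj_mul_self]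
    rfl
  rw [h2, Complex.normSq_eq_norm_sq]

/-- the inner product -/
noncomputable def core (h2 : ∀ p : ℂ[X], ∫ z, ‖p.eval z‖ ^ 2 ∂ν = 0 → p = 0) (k : ℕ) :
    InnerProductSpace.Core ℂ (degreeLT ℂ (k + 1)) where
  inner p q := ∫ z, star ((p : ℂ[X]).eval z) * (q : ℂ[X]).eval z ∂ν
  conj_inner_symm p q := by
    show (starRingEnd ℂ) (∫ z, star ((q : ℂ[X]).eval z) * (p : ℂ[X]).eval z ∂ν) = _
    rw [← integral_conj]
    congr 1
    ext z
    rw [map_mul]
    show star (star ((q : ℂ[X]).eval z)) * star ((p : ℂ[X]).eval z) = _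
    rw [star_star, mul_comm]
  re_inner_nonneg p := by
    rw [self_eq]
    show 0 ≤ ((∫ z, ‖(p : ℂ[X]).eval z‖ ^ 2 ∂ν : ℝ) : ℂ).re
    rw [Complex.ofReal_re]
    exact integral_nonneg fun z => by positivity
  add_left p q r := by
    rw [← integral_add]
    · congr 1
      ext z
      rw [Submodule.coe_add, eval_add, star_add, add_mul]
    · exact int_cont ν h1 (((p : ℂ[X]).continuous.star).mul (r : ℂ[X]).continuous)
    · exact int_cont ν h1 (((q : ℂ[X]).continuous.star).mul (r : ℂ[X]).continuous)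
  smul_left p q r := by
    rw [← integral_const_mul]
    congr 1
    ext z
    rw [Submodule.coe_smul, eval_smul, smul_eq_mul, star_mul', mul_assoc]
    rfl
  definite p hp := by
    rw [self_eq] at hp
    have h3 := h2 p (by exact_mod_cast hp)
    exact Subtype.ext h3

end core

/-- S_ONB. -/
theorem t_ONB : S_ONB := by
  intro ν hν h1 h2 k
  haveI := hν
  letI cd := core ν h1 h2 k
  letI : NormedAddCommGroup (degreeLT ℂ (k + 1)) := cd.toNormedAddCommGroup
  letI : InnerProductSpace ℂ (degreeLT ℂ (k + 1)) := InnerProductSpace.ofCore cd.toCore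
  haveI : FiniteDimensional ℂ (degreeLT ℂ (k + 1)) :=
    Module.Finite.equiv (degreeLTEquiv ℂ (k + 1)).symm
  have hfr : Module.finrank ℂ (degreeLT ℂ (k + 1)) = k + 1 := by
    rw [(degreeLTEquiv ℂ (k + 1)).finrank_eq]
    simp
  let b := (stdOrthonormalBasis ℂ (degreeLT ℂ (k + 1))).reindex (finCongr hfr)
  refine ⟨fun i => (b i : ℂ[X]), ?_, ?_⟩
  · intro i
    have h3 := mem_degreeLT.1 (b i).2
    have h4 : ((b i : ℂ[X])).natDegree < k + 1 := by
      by_cases h5 : (b i : ℂ[X]) = 0
      · rw [h5, natDegree_zero]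
        omega
      · exact (natDegree_lt_iff_degree_lt h5).2 h3
    omega
  · intro i j
    have h3 := orthonormal_iff_ite.1 b.orthonormal i j
    exact h3

end Pool.Agent.Q48.BM

namespace Pool.Agent.Q93.BM

/-- S_ONB under the name of the job. -/
theorem onb : S_ONB := Pool.Agent.Q48.BM.t_ONB

end Pool.Agent.Q93.BM
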