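import Pool.Agent.Q93.BM.Stm

/-!
# Project BM (helper93): from moments to continuous functions
-/

set_option autoImplicit false

open MeasureTheory Set Filter Topology Polynomial

namespace Pool.Agent.Q48.BM

open Pool.Agent.Q93.BM

local instance fact2pi : Fact (0 < 2 * Real.pi) := ⟨Real.two_pi_pos⟩

/-- the angle of a point -/
noncomputable def te (z : ℂ) : AddCircle (2 * Real.pi) := ((Complex.arg z : ℝ) : AddCircle (2 * Real.pi))

lemma te_meas : Measurable te :=
  (AddCircle.continuous_mk' (2 * Real.pi)).measurable.comp Complex.measurable_arg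

lemma fourier_real (n : ℤ) (x : ℝ) : fourier n ((x : ℝ) : AddCircle (2 * Real.pi)) =
    Complex.exp ((n * Complex.I) * x) := by
  rw [fourier_coe_apply]
  congr 1
  have hpi : (Real.pi : ℂ) ≠ 0 := by exact_mod_cast Real.pi_ne_zero
  push_cast
  field_simp

lemma exp_arg {z : ℂ} (hz : ‖z‖ = 1) : Complex.exp (Complex.arg z * Complex.I) = z := by
  have h := Complex.norm_mul_exp_arg_mul_I z
  rw [hz] at h
  simpa using h

lemma fourier_te (m : ℕ) {z : ℂ} (hz : ‖z‖ = 1) : fourier (m : ℤ) (te z) = z ^ m := by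
  unfold te
  rw [fourier_real]
  conv_rhs => rw [← exp_arg hz]
  rw [← Complex.exp_nat_mul]
  congr 1
  push_cast
  ring

lemma toCircle_te {z : ℂ} (hz : ‖z‖ = 1) : ((te z).toCircle : ℂ) = z := by
  have h := fourier_te 1 hz
  rw [pow_one] at h
  have h2 : fourier ((1 : ℕ) : ℤ) (te z) = ((te z).toCircle : ℂ) := by
    rw [Nat.cast_one, fourier_one]
  rw [← h2, h]

/-- the mean over the circle -/
noncomputable def Lam (G : C(AddCircle (2 * Real.pi), ℂ)) : ℂ :=
  (2 * Real.pi : ℂ)⁻¹ * ∫ θ in (0 : ℝ)..(2 * Real.pi), G ((θ : ℝ) : AddCircle (2 * Real.pi))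

lemma Lam_int (G : C(AddCircle (2 * Real.pi), ℂ)) : IntervalIntegrable
    (fun θ : ℝ => G ((θ : ℝ) : AddCircle (2 * Real.pi))) volume 0 (2 * Real.pi) :=
  (G.continuous.comp (AddCircle.continuous_mk' _)).intervalIntegrable _ _

lemma Lam_add (G H : C(AddCircle (2 * Real.pi), ℂ)) : Lam (G + H) = Lam G + Lam H := by
  unfold Lam
  rw [← mul_add, ← intervalIntegral.integral_add (Lam_int G) (Lam_int H)]
  rfl

lemma Lam_smul (c : ℂ) (G : C(AddCircle (2 * Real.pi), ℂ)) : Lam (c • G) = c * Lam G := by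
  unfold Lam
  rw [mul_left_comm]
  congr 1
  rw [← intervalIntegral.integral_const_mul]
  rfl

lemma Lam_norm (G : C(AddCircle (2 * Real.pi), ℂ)) : ‖Lam G‖ ≤ ‖G‖ := by
  unfold Lam
  rw [norm_mul]
  have h1 : ‖∫ θ in (0 : ℝ)..(2 * Real.pi), G ((θ : ℝ) : AddCircle (2 * Real.pi))‖ ≤
      ‖G‖ * |2 * Real.pi - 0| :=
    intervalIntegral.norm_integral_le_of_norm_le_const fun x _ => G.norm_coe_le_norm _
  rw [sub_zero, abs_of_pos Real.two_pi_pos] at h1
  have h2 : ‖(2 * Real.pi : ℂ)⁻¹‖ = (2 * Real.pi)⁻¹ := by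
    rw [norm_inv]
    congr 1
    have : (2 * Real.pi : ℂ) = ((2 * Real.pi : ℝ) : ℂ) := by push_cast; rfl
    rw [this, Complex.norm_real, Real.norm_eq_abs, abs_of_pos Real.two_pi_pos]
  rw [h2]
  have h3 : (0 : ℝ) < 2 * Real.pi := Real.two_pi_pos
  calc (2 * Real.pi)⁻¹ * ‖∫ θ in (0 : ℝ)..(2 * Real.pi), G ((θ : ℝ) : AddCircle (2 * Real.pi))‖ ≤
      (2 * Real.pi)⁻¹ * (‖G‖ * (2 * Real.pi)) := mul_le_mul_of_nonneg_left h1 (by positivity)
    _ = ‖G‖ := by field_simp

lemma Lam_fourier {n : ℤ} (hn : n ≠ 0) : Lam (fourier n) = 0 := by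
  unfold Lam
  have h1 : ∫ θ in (0 : ℝ)..(2 * Real.pi), fourier n ((θ : ℝ) : AddCircle (2 * Real.pi)) = 0 := by
    simp only [fourier_real]
    have hc : (n : ℂ) * Complex.I ≠ 0 := mul_ne_zero (by exact_mod_cast hn) Complex.I_ne_zero
    rw [integral_exp_mul_complex hc]
    have h2 : (n : ℂ) * Complex.I * ((2 * Real.pi : ℝ) : ℂ) = n * (2 * Real.pi * Complex.I) := by
      push_cast
      ring
    rw [h2, Complex.exp_int_mul_two_pi_mul_I]
    simp
  rw [h1, mul_zero]

lemma Lam_zero : Lam (fourier 0) = 1 := by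
  unfold Lam
  have h1 : ∫ θ in (0 : ℝ)..(2 * Real.pi), fourier 0 ((θ : ℝ) : AddCircle (2 * Real.pi)) =
      2 * Real.pi := by
    simp only [fourier_zero]
    simp
  rw [h1]
  have hpi : (Real.pi : ℂ) ≠ 0 := by exact_mod_cast Real.pi_ne_zero
  field_simp

section main

variable {ν : Measure ℂ} [IsFiniteMeasure ν] (h1 : ∀ᵐ z ∂ν, ‖z‖ = 1)
  {F : ℕ → ℂ → ℝ} (hFc : ∀ k, Continuous (F k)) (hF0 : ∀ k z, 0 ≤ F k z)
  (hF1 : ∀ k, ∫ z, F k z ∂ν = k + 1)

/-- the means with the densities `F k` -/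
noncomputable def Lk (ν : Measure ℂ) (F : ℕ → ℂ → ℝ) (k : ℕ) (G : C(AddCircle (2 * Real.pi), ℂ)) :
    ℂ := (∫ z, G (te z) * (F k z : ℂ) ∂ν) / ((k : ℂ) + 1)

include h1 hFc in
lemma F_int (k : ℕ) : Integrable (F k) ν := by
  obtain ⟨C, hC⟩ := (isCompact_sphere (0 : ℂ) 1).exists_bound_of_continuousOn (hFc k).continuousOn
  refine Integrable.of_bound (hFc k).aestronglyMeasurable C ?_
  filter_upwards [h1] with z hz
  exact hC z (mem_sphere_zero_iff_norm.2 hz)

include h1 hFc in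
lemma GF_int (k : ℕ) (G : C(AddCircle (2 * Real.pi), ℂ)) :
    Integrable (fun z => G (te z) * (F k z : ℂ)) ν := by
  have h2 : Integrable (fun z => (F k z : ℂ)) ν := (F_int h1 hFc k).ofReal
  refine h2.bdd_mul (c := ‖G‖) ?_ ?_
  · exact (G.continuous.measurable.comp te_meas).aestronglyMeasurable
  · exact Filter.Eventually.of_forall fun z => G.norm_coe_le_norm _

include h1 hFc in
lemma Lk_add (k : ℕ) (G H : C(AddCircle (2 * Real.pi), ℂ)) :
    Lk ν F k (G + H) = Lk ν F k G + Lk ν F k H := by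
  unfold Lk
  rw [← add_div, ← integral_add (GF_int h1 hFc k G) (GF_int h1 hFc k H)]
  congr 2
  ext z
  rw [← add_mul]
  rfl

omit [IsFiniteMeasure ν] in
lemma Lk_smul (k : ℕ) (c : ℂ) (G : C(AddCircle (2 * Real.pi), ℂ)) :
    Lk ν F k (c • G) = c * Lk ν F k G := by
  unfold Lk
  rw [← mul_div_assoc, ← integral_const_mul]
  congr 2
  ext z
  rw [← mul_assoc]
  rfl

include h1 hFc hF0 hF1 in
lemma Lk_norm (k : ℕ) (G : C(AddCircle (2 * Real.pi), ℂ)) : ‖Lk ν F k G‖ ≤ ‖G‖ := by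
  unfold Lk
  rw [norm_div]
  have h2 : ‖((k : ℂ) + 1)‖ = (k : ℝ) + 1 := by
    have : ((k : ℂ) + 1) = (((k : ℝ) + 1 : ℝ) : ℂ) := by push_cast; rfl
    rw [this, Complex.norm_real, Real.norm_eq_abs, abs_of_pos (by positivity)]
  rw [h2, div_le_iff₀ (by positivity)]
  have h3 : ‖∫ z, G (te z) * (F k z : ℂ) ∂ν‖ ≤ ∫ z, ‖G‖ * F k z ∂ν := by
    refine norm_integral_le_of_norm_le ((F_int h1 hFc k).const_mul _) ?_
    refine Filter.Eventually.of_forall fun z => ?_
    rw [norm_mul, Complex.norm_real, Real.norm_eq_abs, abs_of_nonneg (hF0 k z)]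
    exact mul_le_mul_of_nonneg_right (G.norm_coe_le_norm _) (hF0 k z)
  rw [integral_const_mul, hF1] at h3
  exact h3

include h1 in
omit [IsFiniteMeasure ν] in
lemma Lk_pos (k m : ℕ) : Lk ν F k (fourier (m : ℤ)) =
    (∫ z, z ^ m * (F k z : ℂ) ∂ν) / ((k : ℂ) + 1) := by
  unfold Lk
  congr 1
  refine integral_congr_ae ?_
  filter_upwards [h1] with z hz
  rw [fourier_te m hz]

omit [IsFiniteMeasure ν] in
lemma Lk_neg (k : ℕ) (n : ℤ) : Lk ν F k (fourier (-n)) =
    (starRingEnd ℂ) (Lk ν F k (fourier n)) := by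
  unfold Lk
  rw [map_div₀, ← integral_conj]
  congr 1
  · congr 1
    ext z
    rw [map_mul, fourier_neg, Complex.conj_ofReal]
  · rw [map_add, map_one, Complex.conj_natCast]

include h1 hF1 in
omit [IsFiniteMeasure ν] in
lemma Lk_zero (k : ℕ) : Lk ν F k (fourier 0) = 1 := by
  have h2 := Lk_pos (F := F) h1 k 0
  rw [Nat.cast_zero] at h2
  rw [h2]
  simp only [pow_zero, one_mul]
  have h3 : ∫ z, (F k z : ℂ) ∂ν = ((∫ z, F k z ∂ν : ℝ) : ℂ) := integral_complex_ofReal
  rw [h3, hF1]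
  push_cast
  exact div_self (by exact_mod_cast Nat.succ_ne_zero k)

variable (hFm : ∀ m : ℕ, 0 < m → Tendsto (fun k : ℕ => (∫ z, z ^ m * (F k z : ℂ) ∂ν) / ((k : ℂ) + 1))
  atTop (𝓝 0))

include h1 hF1 hFm in
omit [IsFiniteMeasure ν] in
lemma tend_fourier (n : ℤ) : Tendsto (fun k => Lk ν F k (fourier n)) atTop (𝓝 (Lam (fourier n))) := by
  rcases lt_trichotomy n 0 with hn | hn | hn
  · rw [Lam_fourier hn.ne]
    obtain ⟨m, hm⟩ : ∃ m : ℕ, n = -(m : ℤ) := ⟨n.natAbs, by omega⟩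
    have hm0 : 0 < m := by omega
    rw [hm]
    simp only [Lk_neg]
    have h2 := (Complex.continuous_conj.tendsto 0).comp (hFm m hm0)
    rw [map_zero] at h2
    refine h2.congr fun k => ?_
    rw [Function.comp_apply, Lk_pos h1]
  · rw [hn, Lam_zero]
    simp only [Lk_zero h1 hF1]
    exact tendsto_const_nhds
  · rw [Lam_fourier hn.ne']
    obtain ⟨m, hm⟩ : ∃ m : ℕ, n = (m : ℤ) := ⟨n.toNat, by omega⟩
    have hm0 : 0 < m := by omega
    rw [hm]
    simp only [Lk_pos h1]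
    exact hFm m hm0

include h1 hFc hF0 hF1 hFm in
lemma tend_all (G : C(AddCircle (2 * Real.pi), ℂ)) :
    Tendsto (fun k => Lk ν F k G) atTop (𝓝 (Lam G)) := by
  let S : Submodule ℂ C(AddCircle (2 * Real.pi), ℂ) :=
    { carrier := {G | Tendsto (fun k => Lk ν F k G) atTop (𝓝 (Lam G))}
      add_mem' := by
        intro a b ha hb
        show Tendsto (fun k => Lk ν F k (a + b)) atTop (𝓝 (Lam (a + b)))
        simp only [Lk_add h1 hFc, Lam_add]
        exact ha.add hb
      zero_mem' := by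
        show Tendsto (fun k => Lk ν F k 0) atTop (𝓝 (Lam 0))
        have h2 : ∀ k, Lk ν F k 0 = 0 := by
          intro k
          have := Lk_smul (ν := ν) (F := F) k 0 0
          rwa [zero_smul, zero_mul] at this
        have h3 : Lam 0 = 0 := by
          have := Lam_smul 0 0
          rwa [zero_smul, zero_mul] at this
        simp only [h2, h3]
        exact tendsto_const_nhds
      smul_mem' := by
        intro c a ha
        show Tendsto (fun k => Lk ν F k (c • a)) atTop (𝓝 (Lam (c • a)))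
        simp only [Lk_smul, Lam_smul]
        exact ha.const_mul c }
  have hS : Submodule.span ℂ (Set.range (fourier (T := 2 * Real.pi))) ≤ S := by
    rw [Submodule.span_le]
    rintro _ ⟨n, rfl⟩
    exact tend_fourier h1 hF1 hFm n
  have hcl : IsClosed (S : Set C(AddCircle (2 * Real.pi), ℂ)) := by
    rw [← closure_subset_iff_isClosed]
    intro G hG
    show Tendsto (fun k => Lk ν F k G) atTop (𝓝 (Lam G))
    rw [Metric.tendsto_atTop]
    intro ε hε
    obtain ⟨H, hH, hd⟩ := Metric.mem_closure_iff.1 hG (ε / 3) (by positivity)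
    have hH' : Tendsto (fun k => Lk ν F k H) atTop (𝓝 (Lam H)) := hH
    rw [Metric.tendsto_atTop] at hH'
    obtain ⟨N, hN⟩ := hH' (ε / 3) (by positivity)
    refine ⟨N, fun k hk => ?_⟩
    have h3 := hN k hk
    rw [dist_eq_norm] at h3 hd ⊢
    have e1 : G = (G - H) + H := by simp
    have e2 : Lk ν F k G = Lk ν F k (G - H) + Lk ν F k H := by
      conv_lhs => rw [e1]
      exact Lk_add h1 hFc k _ _
    have e3 : Lam G = Lam (G - H) + Lam H := by
      conv_lhs => rw [e1]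
      exact Lam_add _ _
    rw [e2, e3]
    have h4 := Lk_norm h1 hFc hF0 hF1 k (G - H)
    have h5 := Lam_norm (G - H)
    calc ‖Lk ν F k (G - H) + Lk ν F k H - (Lam (G - H) + Lam H)‖ =
        ‖Lk ν F k (G - H) + (Lk ν F k H - Lam H) - Lam (G - H)‖ := by
          congr 1
          ring
      _ ≤ ‖Lk ν F k (G - H)‖ + ‖Lk ν F k H - Lam H‖ + ‖Lam (G - H)‖ :=
          (norm_sub_le _ _).trans (by gcongr; exact norm_add_le _ _)
      _ < ε := by linarith
  have h2 := Submodule.topologicalClosure_minimal _ hS hcl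
  rw [span_fourier_closure_eq_top] at h2
  exact h2 (Submodule.mem_top (x := G))

end main

/-- S_WEAK. -/
theorem t_WEAK : S_WEAK := by
  intro ν hν h1' F hFc hF0 hF1 hFm φ hφ
  have h1 : ∀ᵐ z ∂ν, ‖z‖ = 1 := by
    rw [ae_iff]
    refine measure_mono_null ?_ h1'
    intro z hz hz2
    exact hz (mem_sphere_zero_iff_norm.1 hz2)
  let G : C(AddCircle (2 * Real.pi), ℂ) :=
    ⟨fun t => ((φ (t.toCircle : ℂ) : ℝ) : ℂ), by fun_prop⟩
  have h2 := tend_all h1 hFc hF0 hF1 hFm G
  have h3 : ∀ k, Lk ν F k G = (((∫ z, φ z * F k z ∂ν) / ((k : ℝ) + 1) : ℝ) : ℂ) := by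
    intro k
    unfold Lk
    push_cast
    congr 1
    rw [← integral_complex_ofReal]
    refine integral_congr_ae ?_
    filter_upwards [h1] with z hz
    show ((φ ((te z).toCircle : ℂ) : ℝ) : ℂ) * _ = _
    rw [toCircle_te hz]
    push_cast
    rfl
  have h4 : Lam G = ((Real.circleAverage φ 0 1 : ℝ) : ℂ) := by
    unfold Lam
    rw [Real.circleAverage_def, smul_eq_mul]
    push_cast
    congr 1
    rw [← intervalIntegral.integral_ofReal]
    refine intervalIntegral.integral_congr fun θ _ => ?_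
    show ((φ (AddCircle.toCircle ((θ : ℝ) : AddCircle (2 * Real.pi)) : ℂ) : ℝ) : ℂ) = _
    congr 2
    rw [AddCircle.toCircle_apply_mk, Circle.coe_exp]
    have hpi : (Real.pi : ℝ) ≠ 0 := Real.pi_ne_zero
    have h5 : 2 * Real.pi / (2 * Real.pi) * θ = θ := by field_simp
    rw [h5]
    simp [circleMap]
  rw [h4] at h2
  simp only [h3] at h2
  have h5 := (Complex.continuous_re.tendsto _).comp h2
  rw [Complex.ofReal_re] at h5
  refine h5.congr fun k => ?_
  rw [Function.comp_apply, Complex.ofReal_re]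

end Pool.Agent.Q48.BM

namespace Pool.Agent.Q93.BM

/-- S_WEAK under the name of the job. -/
theorem weak : S_WEAK := Pool.Agent.Q48.BM.t_WEAK

end Pool.Agent.Q93.BM
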